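import Mathlib
import Pool.Agent.W910.FC.Collapse
import Pool.Agent.Q307.AV.Main

/-!
# Strongly avoiding pairs, but no totally avoiding pairs, are consistent

Martin's axiom for `ℵ₁` dense sets together with `𝔠 ≤ ℵ₂` is forced by a preordered set of
conditions. Under this hypothesis `𝔠 = ℵ₂`, and fewer than `𝔠` nowhere dense sets never cover a
nonempty open subset of the Cantor space. Enumerate the (codes of) continuous functions `F_β` and
choose a sequence `z_α` such that `z_α` is different from all `F_β(z_γ)` and is not in a fibre
`F_β⁻¹(z_γ)` which is nowhere dense (`β, γ < α`); all but countably many fibres of `F_β` are nowhere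
dense. Two disjoint dense subsets of the sequence strongly avoid one another. On the other hand,
given two `𝔠`-dense sets `X` and `Y`, every one to one function from a subset of `X` of size `ℵ₁` to
`Y` is the union of countably many continuous functions; so it is continuous on an uncountable set,
and it can be extended by a constant to a set of size `𝔠` if it lives in a proper clopen set.

The forcing language is the one of `Pool.Agent.Helper669.Forcing`: a sentence is the set of the
conditions which force it, `fnot`, `fand`, `fall` are the primitive connectives and `fimp`, `fex`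
are defined from them classically. The sentence `MartinHolds P X` is the translation into the
forcing language of the proposition `MartinFor X` (both are in `Pool.Agent.W684.FM.Defs`), which is
Martin's axiom for preorders with underlying set `X` and `X`-indexed families of dense sets;
`ContinuumLe P Y` says that in the extension there is a map from `Y` onto the set of all functions
from the natural numbers to themselves.
-/

set_option autoImplicit false

namespace Pool.Agent.Results.MP_24213f_lc.StrongNotTotal

open Cardinal Pool.Agent.W684 Pool.Agent.Helper669.Forcing Pool.Agent.W684.FM Pool.Agent.Q307.AV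

/-- (1) There is a preordered set `P` of forcing conditions such that every condition forces that
`ω₁` is preserved, that Martin's axiom for `ℵ₁` dense sets holds and that the continuum is at most
`ℵ₂`; (2), (3) the plain forms of the latter two sentences. (4) Martin's axiom for `ℵ₁` dense sets
and `𝔠 ≤ ℵ₂` imply that there are `𝔠`-dense subsets `X` and `Y` of the Cantor space which strongly
avoid one another, and that no two `𝔠`-dense subsets `X'` and `Y'` totally avoid one another; in
fact `X'` never totally avoids `Y'`. -/
theorem result :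
    (∃ (P : Type) (_ : Preorder P), Nonempty P ∧ ∀ p : P,
      p ∈ OmegaOnePreserved P ∧ p ∈ MartinHolds P Om1 ∧
        p ∈ ContinuumLe P (ℵ_ 2 : Cardinal.{0}).out) ∧
    (MartinFor Om1 ↔ MartinAxiomAleph1) ∧
    ((∃ E : (ℵ_ 2 : Cardinal.{0}).out → ℕ → ℕ, Function.Surjective E) ↔
      (𝔠 : Cardinal.{0}) ≤ ℵ_ 2) ∧
    (MartinAxiomAleph1 → (𝔠 : Cardinal.{0}) ≤ ℵ_ 2 →
      (∃ X Y : Set Cantor, KappaDense 𝔠 X ∧ KappaDense 𝔠 Y ∧
        StronglyAvoids 𝔠 X Y ∧ StronglyAvoids 𝔠 Y X) ∧
      (∀ X Y : Set Cantor, KappaDense 𝔠 X → KappaDense 𝔠 Y → ¬ TotallyAvoids 𝔠 X Y) ∧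
      ¬ ∃ X Y : Set Cantor, KappaDense 𝔠 X ∧ KappaDense 𝔠 Y ∧
        TotallyAvoids 𝔠 X Y ∧ TotallyAvoids 𝔠 Y X) := by
  refine ⟨Pool.Agent.W910.FC.exists_forcing, martinFor_om1_iff, ?_, fun hMA hc => ?_⟩
  · have h1 : #(ℕ → ℕ) = (𝔠 : Cardinal.{0}) := by
      simp
    constructor
    · rintro ⟨E, hE⟩
      have h2 := mk_le_of_surjective hE
      rwa [h1, mk_out] at h2
    · intro h
      rw [← h1, ← mk_out (ℵ_ 2)] at h
      obtain ⟨e⟩ := h
      exact ⟨Function.invFun e, Function.invFun_surjective e.injective⟩
  · have hnt : ∀ X Y : Set Cantor, KappaDense 𝔠 X → KappaDense 𝔠 Y → ¬ TotallyAvoids 𝔠 X Y :=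
      fun X Y hX hY => not_total hMA aleph_one_le_continuum X Y hX hY
    refine ⟨exists_strong fun 𝒩 hcard h𝒩 O hO hne => ?_, hnt, ?_⟩
    · refine not_covered hMA 𝒩 ?_ h𝒩 O hO hne
      have h1 : #𝒩 < ℵ_ 2 := hcard.trans_le hc
      have h2 : (ℵ_ 2 : Cardinal.{0}) = Order.succ ℵ₁ := by
        rw [← Cardinal.aleph_succ]
        congr 1
        norm_num
      rw [h2, Order.lt_succ_iff] at h1
      exact h1
    · rintro ⟨X, Y, hX, hY, h1, -⟩
      exact hnt X Y hX hY h1

end Pool.Agent.Results.MP_24213f_lc.StrongNotTotal
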